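import Pool.Agent.W684.Canon2
import Pool.Agent.Helper292.ForceCH

/-!
# Isomorphic embeddings of `ℓ_∞ / c₀` cannot be canonized along homeomorphisms in ZFC

* There is a notion of forcing which preserves `ω₁` and forces the continuum hypothesis.
* The continuum hypothesis implies that there is an isometric embedding `T` of `C(ℕ*)` into itself
  such that for no infinite `A ⊆ ℕ` the restriction of `T` to the `A`-supported functions has a
  bounded linear left inverse which is defined on the whole space `C(ℕ*)`. In particular there is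
  no quadruple `(A, F, ψ, r)` as in the question.

The operator `T` is the composition `C(ℕ*) → W → C(ℕ*)`, where `W` is the space of the weak*
limits of sequences of `C(ℕ*)` in its second dual; this construction and its main properties are
in the starting file `Pool.Agent.H916R3.CH.Main`.
-/

set_option autoImplicit false
set_option maxSynthPendingDepth 6

namespace Pool.Agent.Results.MP_f07f3c_an.ForcedFailure

open Pool.Agent.Helper292.ForceCH (OmegaOnePreserved CHHolds)
open scoped BoundedContinuousFunction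

/-- The remainder `ℕ* = βℕ \ ℕ` of the Stone–Čech compactification of the discrete space `ℕ`. -/
abbrev NStar : Type :=
  {x : StoneCech ℕ // x ∉ Set.range (stoneCechUnit : ℕ → StoneCech ℕ)}

/-- The clopen subset `A*` of `ℕ*`, for `A ⊆ ℕ`. -/
def AStar (A : Set ℕ) : Set NStar :=
  {x | x.1 ∈ closure ((stoneCechUnit : ℕ → StoneCech ℕ) '' A)}

/-- The function `G*`: the restriction to `ℕ*` of the continuous function `G` on `βℕ`. -/
noncomputable def restr (G : C(StoneCech ℕ, ℝ)) : NStar →ᵇ ℝ :=
  (BoundedContinuousFunction.mkOfCompact G).compContinuous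
    ⟨Subtype.val, continuous_subtype_val⟩

/-- `G` is `A`-supported: it vanishes at the points of `ℕ` outside `A`. -/
def Supported (A : Set ℕ) (G : C(StoneCech ℕ, ℝ)) : Prop :=
  ∀ n : ℕ, n ∉ A → G (stoneCechUnit n) = 0

/-- The statement of the question: for every isomorphic embedding `T` of `C(ℕ*)` into itself there
are an infinite `A ⊆ ℕ`, a closed `F ⊆ ℕ*`, a homeomorphism `ψ` of `F` onto `A*` and a real
number `r ≠ 0` such that `T (G*)` restricted to `F` is `r (G* ∘ ψ)` for every `A`-supported `G`. -/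
def Q1 : Prop :=
  ∀ T : (NStar →ᵇ ℝ) →L[ℝ] (NStar →ᵇ ℝ), (∃ c : ℝ, 0 < c ∧ ∀ f, c * ‖f‖ ≤ ‖T f‖) →
    ∃ (A : Set ℕ) (F : Set NStar) (r : ℝ) (ψ : F ≃ₜ AStar A), A.Infinite ∧ IsClosed F ∧ r ≠ 0 ∧
      ∀ G : C(StoneCech ℕ, ℝ), Supported A G →
        ∀ x : F, T (restr G) x.1 = r * restr G (ψ x).1

/-- (A) There is a notion of forcing all of whose conditions force that `ω₁` is preserved and that
the continuum hypothesis holds. (B) The continuum hypothesis implies that there is a linear
isometric embedding `T` of `C(ℕ*)` into itself such that for no infinite set `A ⊆ ℕ` there is a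
bounded linear operator `U` on `C(ℕ*)` with `U (T (G*)) = G*` for all `A`-supported `G`. (C) The
continuum hypothesis implies that the answer to the question is negative. -/
theorem result :
    (∃ (P : Type) (_ : Preorder P), Nonempty P ∧
      ∀ p : P, p ∈ OmegaOnePreserved P ∧ p ∈ CHHolds P) ∧
    (Cardinal.aleph.{0} 1 = Cardinal.continuum →
      ∃ T : (NStar →ᵇ ℝ) →L[ℝ] (NStar →ᵇ ℝ), (∀ f, ‖T f‖ = ‖f‖) ∧
        ∀ A : Set ℕ, A.Infinite → ¬ ∃ U : (NStar →ᵇ ℝ) →L[ℝ] (NStar →ᵇ ℝ),
          ∀ G : C(StoneCech ℕ, ℝ), Supported A G → U (T (restr G)) = restr G) ∧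
    (Cardinal.aleph.{0} 1 = Cardinal.continuum → ¬ Q1) := by
  refine ⟨?_, fun hCH => ?_, fun hCH hQ => ?_⟩
  · obtain ⟨P, hP, hne, h⟩ := Pool.Agent.Helper292.ForceCH.exists_forcing
    exact ⟨P, hP, hne, fun p => ⟨(h p).1, (h p).2.2⟩⟩
  · obtain ⟨T, hT, h⟩ := Pool.Agent.W684.Canon.main hCH
    exact ⟨T, hT, fun A hA ⟨U, hU⟩ => h A hA U hU⟩
  · obtain ⟨T, hT, h⟩ := Pool.Agent.W684.Canon.main hCH
    obtain ⟨A, F, r, ψ, hA, -, hr, hq⟩ := hQ T ⟨1, one_pos, fun f => by rw [one_mul, hT]⟩
    exact h A hA (Pool.Agent.W684.Canon.leftInvL A F r ψ)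
      (Pool.Agent.W684.Canon.leftInvL_spec hr hq)

end Pool.Agent.Results.MP_f07f3c_an.ForcedFailure
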